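import Mathlib

open MeasureTheory Set Filter Topology Real

namespace Pool.Agent.Results.MP_490a28_an.No

/-- `u` is a Dirichlet eigenfunction of `-d²/dx² + V` on `(a,b)` for the eigenvalue `lam`:
continuous on `[a,b]`, zero at both ends, twice differentiable in `(a,b)` with
`-u'' + V u = lam u`. -/
def IsEigen (a b : ℝ) (V : ℝ → ℝ) (lam : ℝ) (u : ℝ → ℝ) : Prop :=
  ContinuousOn u (Icc a b) ∧ u a = 0 ∧ u b = 0 ∧ ∃ u' u'' : ℝ → ℝ, ∀ x ∈ Ioo a b,
    HasDerivAt u (u' x) x ∧ HasDerivAt u' (u'' x) x ∧ -u'' x + V x * u x = lam * u x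

/-- An admissible eigenbasis: eigenvalues listed in nondecreasing order, and the eigenfunctions
form an orthonormal (Hilbert) basis of `L²(a,b)`. -/
def Admissible (a b : ℝ) (V : ℝ → ℝ) (lam : ℕ → ℝ) (u : ℕ → ℝ → ℝ) : Prop :=
  Monotone lam ∧ (∀ j, IsEigen a b V (lam j) (u j)) ∧
    ∃ e : HilbertBasis ℕ ℝ (Lp ℝ 2 (volume.restrict (Ioo a b))),
      ∀ j, (e j : ℝ → ℝ) =ᵐ[volume.restrict (Ioo a b)] u j

/-- The mean of the potential in the state `u`. -/
noncomputable def mean (a b : ℝ) (V u : ℝ → ℝ) : ℝ := ∫ x in Ioo a b, V x * u x ^ 2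

lemma ext_eig {V : ℝ → ℝ} (hV : Continuous V) {lam : ℝ} {u : ℝ → ℝ} (h : IsEigen 0 π V lam u) :
    ∃ v p : ℝ → ℝ, Continuous v ∧ (∀ x ∈ Icc 0 π, v x = u x) ∧
      (∀ x ∈ Ioo 0 π, HasDerivAt v (p x) x) ∧ ∀ x, HasDerivAt p ((V x - lam) * v x) x := by
  obtain ⟨hc, -, -, u', u'', hu⟩ := h
  set v : ℝ → ℝ := fun x => u (max 0 (min x π)) with hv
  have hvc : Continuous v := by
    refine hc.comp_continuous (by fun_prop) fun x => ⟨le_max_left _ _, ?_⟩
    exact max_le pi_pos.le (min_le_right _ _)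
  have hvu : ∀ x ∈ Icc 0 π, v x = u x := fun x hx => by
    simp only [hv]; rw [min_eq_left hx.2, max_eq_right hx.1]
  have hg : Continuous fun x => (V x - lam) * v x := (hV.sub continuous_const).mul hvc
  refine ⟨v, fun x => u' (π / 2) + ∫ s in (π / 2)..x, (V s - lam) * v s, hvc, hvu,
    fun x hx => ?_, fun x => ((hg.integral_hasStrictDerivAt _ x).hasDerivAt).const_add _⟩
  have hsub : uIcc (π / 2) x ⊆ Ioo 0 π :=
    (ordConnected_Ioo).uIcc_subset ⟨by positivity, by linarith [pi_pos]⟩ hx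
  have e1 : ∫ s in (π / 2)..x, (V s - lam) * v s = u' x - u' (π / 2) := by
    refine intervalIntegral.integral_eq_sub_of_hasDerivAt (fun y hy => ?_)
      (hg.intervalIntegrable _ _)
    obtain ⟨-, h2, h3⟩ := hu y (hsub hy)
    refine h2.congr_deriv ?_
    rw [hvu y (Ioo_subset_Icc_self (hsub hy))]; linarith
  have e2 : v =ᶠ[𝓝 x] u := by
    filter_upwards [Ioo_mem_nhds hx.1 hx.2] with y hy using hvu y (Ioo_subset_Icc_self hy)
  simp only [e1, add_sub_cancel]
  exact (hu x hx).1.congr_of_eventuallyEq e2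

lemma PQ {V v p : ℝ → ℝ} (hV : Continuous V) {lam : ℝ} (k : ℝ) (hv : Continuous v)
    (h1 : ∀ x ∈ Ioo 0 π, HasDerivAt v (p x) x) (h2 : ∀ x, HasDerivAt p ((V x - lam) * v x) x)
    (h0 : v 0 = 0) {x : ℝ} (hx : x ∈ Icc 0 π) :
    (∫ s in (0 : ℝ)..x, (V s - lam + k ^ 2) * v s * cos (k * s))
        = p x * cos (k * x) + k * v x * sin (k * x) - p 0 ∧
    (∫ s in (0 : ℝ)..x, (V s - lam + k ^ 2) * v s * sin (k * s))
        = p x * sin (k * x) - k * v x * cos (k * x) := by
  have hp : Continuous p := continuous_iff_continuousAt.2 fun y => (h2 y).continuousAt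
  have hk : ∀ y, HasDerivAt (fun y => k * y) k y := fun y => by
    simpa using (hasDerivAt_id y).const_mul k
  constructor
  · rw [intervalIntegral.integral_eq_sub_of_hasDerivAt_of_le hx.1
      (f := fun y => p y * cos (k * y) + k * v y * sin (k * y)) (by fun_prop)
      (fun y hy => ?_) (Continuous.intervalIntegrable (by fun_prop) _ _)]
    · simp
    · refine (((h2 y).mul (hk y).cos).add
        (((h1 y ⟨hy.1, lt_of_lt_of_le hy.2 hx.2⟩).const_mul k).mul (hk y).sin)).congr_deriv ?_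
      ring
  · rw [intervalIntegral.integral_eq_sub_of_hasDerivAt_of_le hx.1
      (f := fun y => p y * sin (k * y) - k * v y * cos (k * y)) (by fun_prop)
      (fun y hy => ?_) (Continuous.intervalIntegrable (by fun_prop) _ _)]
    · simp [h0]
    · refine (((h2 y).mul (hk y).sin).sub
        (((h1 y ⟨hy.1, lt_of_lt_of_le hy.2 hx.2⟩).const_mul k).mul (hk y).cos)).congr_deriv ?_
      ring

noncomputable def W (x : ℝ) : ℝ := |x - π / 2|

lemma cont_W : Continuous W := by unfold W; fun_prop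
lemma W_nonneg (x : ℝ) : 0 ≤ W x := abs_nonneg _
lemma W_le {x : ℝ} (hx : x ∈ Icc 0 π) : W x ≤ 2 := by
  unfold W; rw [abs_le]; constructor <;> linarith [hx.1, hx.2, pi_le_four]

lemma abs_int_le {f g : ℝ → ℝ} (hf : Continuous f) (hg : Continuous g)
    (h : ∀ s ∈ Icc 0 π, |f s| ≤ g s) {x : ℝ} (hx : x ∈ Icc 0 π) :
    |∫ s in (0 : ℝ)..x, f s| ≤ ∫ s in (0 : ℝ)..π, g s := by
  calc |∫ s in (0 : ℝ)..x, f s| ≤ ∫ s in (0 : ℝ)..x, |f s| :=
        intervalIntegral.abs_integral_le_integral_abs hx.1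
    _ ≤ ∫ s in (0 : ℝ)..x, g s :=
        intervalIntegral.integral_mono_on hx.1 (hf.abs.intervalIntegrable _ _)
          (hg.intervalIntegrable _ _) fun s hs => h s ⟨hs.1, hs.2.trans hx.2⟩
    _ ≤ ∫ s in (0 : ℝ)..π, g s := by
        refine intervalIntegral.integral_mono_interval le_rfl hx.1 hx.2 ?_
          (hg.intervalIntegrable _ _)
        filter_upwards [ae_restrict_mem measurableSet_Ioc] with s hs
        exact (abs_nonneg _).trans (h s ⟨hs.1.le, hs.2⟩)

lemma int_affine {v : ℝ → ℝ} (hv : Continuous v) (hn : ∫ s in (0 : ℝ)..π, v s ^ 2 = 1)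
    (α β : ℝ) : ∫ s in (0 : ℝ)..π, (α + β * v s ^ 2) = α * π + β := by
  rw [intervalIntegral.integral_add (by simp) (Continuous.intervalIntegrable (by fun_prop) _ _),
    intervalIntegral.integral_const_mul, hn]
  simp [mul_comm]

lemma approx {v p : ℝ → ℝ} {lam k : ℝ} (hk : 2 ≤ k) (hv : Continuous v)
    (h1 : ∀ x ∈ Ioo 0 π, HasDerivAt v (p x) x)
    (h2 : ∀ x, HasDerivAt p ((W x / 100000 - lam) * v x) x)
    (h0 : v 0 = 0) (hn : ∫ s in (0 : ℝ)..π, v s ^ 2 = 1) (hl : |lam - k ^ 2| ≤ 3 / 100000) :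
    ∃ γ : ℝ, |1 - γ * ∫ s in (0 : ℝ)..π, sin (k * s) ^ 2| ≤ 1 / 1000 ∧
      |(∫ s in (0 : ℝ)..π, W s * v s ^ 2) - γ * ∫ s in (0 : ℝ)..π, W s * sin (k * s) ^ 2|
        ≤ 2 / 1000 := by
  have hW := cont_W
  have hV : Continuous fun x => W x / 100000 := hW.div_const _
  have hb : ∀ s ∈ Icc 0 π, ∀ w : ℝ, |w| ≤ 1 → |(W s / 100000 - lam + k ^ 2) * v s * w|
      ≤ 1 / 40000 + 1 / 40000 * v s ^ 2 := by
    intro s hs w hw
    have ha : |W s / 100000 - lam + k ^ 2| ≤ 1 / 20000 := by
      rw [abs_le] at hl ⊢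
      constructor <;> linarith [W_nonneg s, W_le hs, hl.1, hl.2]
    have hc : |v s| ≤ (1 + v s ^ 2) / 2 := by
      rw [← sq_abs]; nlinarith [sq_nonneg (|v s| - 1)]
    rw [abs_mul, abs_mul]
    calc _ ≤ 1 / 20000 * ((1 + v s ^ 2) / 2) * 1 := by gcongr
      _ = _ := by ring
  have hr : ∀ x ∈ Icc 0 π, |v x - p 0 / k * sin (k * x)| ≤ 1 / 8000 := by
    intro x hx
    obtain ⟨e1, e2⟩ := PQ hV k hv h1 h2 h0 hx
    have b1 := abs_int_le (f := fun s => (W s / 100000 - lam + k ^ 2) * v s * cos (k * s))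
      (g := fun s => 1 / 40000 + 1 / 40000 * v s ^ 2) (by fun_prop) (by fun_prop)
      (fun s hs => hb s hs _ (abs_cos_le_one _)) hx
    have b2 := abs_int_le (f := fun s => (W s / 100000 - lam + k ^ 2) * v s * sin (k * s))
      (g := fun s => 1 / 40000 + 1 / 40000 * v s ^ 2) (by fun_prop) (by fun_prop)
      (fun s hs => hb s hs _ (abs_sin_le_one _)) hx
    rw [int_affine hv hn] at b1 b2
    rw [e1] at b1
    rw [e2] at b2
    set A := p x * cos (k * x) + k * v x * sin (k * x) - p 0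
    set B := p x * sin (k * x) - k * v x * cos (k * x)
    have hk0 : 0 < k := by linarith
    have e : v x - p 0 / k * sin (k * x) = (A * sin (k * x) - B * cos (k * x)) / k := by
      have := sin_sq_add_cos_sq (k * x)
      simp only [A, B]
      field_simp
      linear_combination (-(v x * k)) * this
    have hA : |A * sin (k * x)| ≤ 1 / 8000 := by
      rw [abs_mul]
      calc _ ≤ (1 / 40000 * π + 1 / 40000) * 1 := by gcongr; exact abs_sin_le_one _
        _ ≤ _ := by linarith [pi_le_four]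
    have hB : |B * cos (k * x)| ≤ 1 / 8000 := by
      rw [abs_mul]
      calc _ ≤ (1 / 40000 * π + 1 / 40000) * 1 := by gcongr; exact abs_cos_le_one _
        _ ≤ _ := by linarith [pi_le_four]
    rw [e, abs_div, abs_of_pos hk0, div_le_iff₀ hk0]
    linarith [abs_sub (A * sin (k * x)) (B * cos (k * x))]
  have hs : ∀ x ∈ Icc 0 π, |v x ^ 2 - (p 0 / k) ^ 2 * sin (k * x) ^ 2|
      ≤ 1 / 7000 + 1 / 8000 * v x ^ 2 := by
    intro x hx
    have h := hr x hx
    set r := v x - p 0 / k * sin (k * x)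
    have e : v x ^ 2 - (p 0 / k) ^ 2 * sin (k * x) ^ 2 = r * (2 * v x - r) := by
      simp only [r]; ring
    have hc : |2 * v x - r| ≤ 1 + v x ^ 2 + 1 / 8000 := by
      refine (abs_sub _ _).trans ?_
      rw [abs_mul, abs_two, ← sq_abs]; nlinarith [sq_nonneg (|v x| - 1)]
    rw [e, abs_mul]
    calc _ ≤ 1 / 8000 * (1 + v x ^ 2 + 1 / 8000) := by gcongr
      _ ≤ _ := by linarith
  refine ⟨(p 0 / k) ^ 2, ?_, ?_⟩
  · have b := abs_int_le (f := fun s => v s ^ 2 - (p 0 / k) ^ 2 * sin (k * s) ^ 2)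
      (g := fun s => 1 / 7000 + 1 / 8000 * v s ^ 2) (by fun_prop) (by fun_prop) hs
      ⟨pi_pos.le, le_rfl⟩
    rw [int_affine hv hn, intervalIntegral.integral_sub
      (Continuous.intervalIntegrable (by fun_prop) _ _)
      (Continuous.intervalIntegrable (by fun_prop) _ _), hn,
      intervalIntegral.integral_const_mul] at b
    linarith [pi_le_four]
  · have b := abs_int_le
      (f := fun s => W s * v s ^ 2 - (p 0 / k) ^ 2 * (W s * sin (k * s) ^ 2))
      (g := fun s => 2 / 7000 + 2 / 8000 * v s ^ 2) (by fun_prop) (by fun_prop)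
      (fun s hs' => by
        have e : W s * v s ^ 2 - (p 0 / k) ^ 2 * (W s * sin (k * s) ^ 2)
            = W s * (v s ^ 2 - (p 0 / k) ^ 2 * sin (k * s) ^ 2) := by ring
        rw [e, abs_mul, abs_of_nonneg (W_nonneg s)]
        calc _ ≤ 2 * (1 / 7000 + 1 / 8000 * v s ^ 2) := by
              gcongr
              · exact W_le hs'
              · exact hs s hs'
          _ = _ := by ring)
      ⟨pi_pos.le, le_rfl⟩
    rw [int_affine hv hn, intervalIntegral.integral_sub
      (Continuous.intervalIntegrable (by fun_prop) _ _)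
      (Continuous.intervalIntegrable (by fun_prop) _ _),
      intervalIntegral.integral_const_mul] at b
    linarith [pi_le_four]

lemma int_sin_sq (k : ℝ) (hk : k ≠ 0) (h : sin (2 * k * π) = 0) :
    ∫ s in (0 : ℝ)..π, sin (k * s) ^ 2 = π / 2 := by
  have hd : ∀ y, HasDerivAt (fun y => 2 * k * y) (2 * k) y := fun y => by
    simpa using (hasDerivAt_id y).const_mul (2 * k)
  rw [intervalIntegral.integral_eq_sub_of_hasDerivAt
    (f := fun y => y / 2 - sin (2 * k * y) / (4 * k)) (fun y _ => ?_)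
    (Continuous.intervalIntegrable (by fun_prop) _ _)]
  · simp [h]
  · refine (((hasDerivAt_id y).div_const 2).sub ((hd y).sin.div_const (4 * k))).congr_deriv ?_
    rw [show 2 * k * y = 2 * (k * y) by ring, cos_two_mul, cos_sq']
    field_simp; ring

lemma int_W (k : ℝ) (hk : k ≠ 0) (h : sin (2 * k * π) = 0) (h' : cos (2 * k * π) = 1) :
    ∫ s in (0 : ℝ)..π, W s * sin (k * s) ^ 2 = π ^ 2 / 8 - (1 - cos (k * π)) / (4 * k ^ 2) := by
  have hW := cont_W
  have hd : ∀ y, HasDerivAt (fun y => 2 * k * y) (2 * k) y := fun y => by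
    simpa using (hasDerivAt_id y).const_mul (2 * k)
  set F : ℝ → ℝ := fun y => (y - π / 2) ^ 2 / 4 - (y - π / 2) * sin (2 * k * y) / (4 * k)
    - cos (2 * k * y) / (8 * k ^ 2) with hF
  have hF' : ∀ y, HasDerivAt F ((y - π / 2) * sin (k * y) ^ 2) y := fun y => by
    have h0 : HasDerivAt (fun y => y - π / 2) 1 y := (hasDerivAt_id y).sub_const _
    refine ((((h0.pow 2).div_const 4).sub ((h0.mul (hd y).sin).div_const (4 * k))).sub
      ((hd y).cos.div_const (8 * k ^ 2))).congr_deriv ?_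
    rw [show 2 * k * y = 2 * (k * y) by ring, cos_two_mul, cos_sq']
    field_simp; ring
  have e1 : ∫ s in (0 : ℝ)..(π / 2), W s * sin (k * s) ^ 2 = -(F (π / 2) - F 0) := by
    rw [← intervalIntegral.integral_eq_sub_of_hasDerivAt (fun y _ => hF' y)
      (Continuous.intervalIntegrable (by fun_prop) _ _), ← intervalIntegral.integral_neg]
    refine intervalIntegral.integral_congr fun s hs => ?_
    rw [uIcc_of_le (by positivity)] at hs
    simp only [W]; rw [abs_of_nonpos (by linarith [hs.2])]; ring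
  have e2 : ∫ s in (π / 2)..π, W s * sin (k * s) ^ 2 = F π - F (π / 2) := by
    rw [← intervalIntegral.integral_eq_sub_of_hasDerivAt (fun y _ => hF' y)
      (Continuous.intervalIntegrable (by fun_prop) _ _)]
    refine intervalIntegral.integral_congr fun s hs => ?_
    rw [uIcc_of_le (by linarith [pi_pos])] at hs
    simp only [W]; rw [abs_of_nonneg (by linarith [hs.1])]
  rw [← intervalIntegral.integral_add_adjacent_intervals (b := π / 2)
    (Continuous.intervalIntegrable (by fun_prop) _ _)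
    (Continuous.intervalIntegrable (by fun_prop) _ _), e1, e2]
  simp only [hF, h, h', mul_zero, sin_zero, cos_zero, sub_self, show 2 * k * (π / 2) = k * π by ring]
  field_simp; ring

lemma ioo_eq (f : ℝ → ℝ) : ∫ x in Ioo 0 π, f x = ∫ x in (0 : ℝ)..π, f x := by
  rw [intervalIntegral.integral_of_le pi_pos.le, integral_Ioc_eq_integral_Ioo]

lemma parseval (e : HilbertBasis ℕ ℝ (Lp ℝ 2 (volume.restrict (Ioo 0 π)))) {v : ℕ → ℝ → ℝ}
    (he : ∀ j, (e j : ℝ → ℝ) =ᵐ[volume.restrict (Ioo 0 π)] v j) {f : ℝ → ℝ} (hf : Continuous f) :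
    HasSum (fun j => (∫ x in (0 : ℝ)..π, f x * v j x) ^ 2) (∫ x in (0 : ℝ)..π, f x ^ 2) := by
  have hm : MemLp f 2 (volume.restrict (Ioo 0 π)) := by
    rw [memLp_two_iff_integrable_sq hf.aestronglyMeasurable]
    exact ((hf.pow 2).integrableOn_Icc).mono_set Ioo_subset_Icc_self
  have := e.hasSum_inner_mul_inner (hm.toLp f) (hm.toLp f)
  have e1 : ∀ j, inner ℝ (e j) (hm.toLp f) = ∫ x in (0 : ℝ)..π, f x * v j x := fun j => by
    rw [L2.inner_def, ← ioo_eq]
    refine integral_congr_ae ?_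
    filter_upwards [he j, hm.coeFn_toLp] with x h1 h2
    simp [h1, h2]
  have e2 : inner ℝ (hm.toLp f) (hm.toLp f) = ∫ x in (0 : ℝ)..π, f x ^ 2 := by
    rw [L2.inner_def, ← ioo_eq]
    refine integral_congr_ae ?_
    filter_upwards [hm.coeFn_toLp] with x h2
    simp [h2]
  rw [e2] at this
  have e3 : (fun j => (∫ x in (0 : ℝ)..π, f x * v j x) ^ 2)
      = fun j => inner ℝ (hm.toLp f) (e j) * inner ℝ (e j) (hm.toLp f) := by
    funext j
    rw [real_inner_comm (e j) (hm.toLp f), e1, sq]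
  rw [e3]; exact this

theorem result : ∃ (a b : ℝ) (V : ℝ → ℝ), a < b ∧ ConvexOn ℝ univ V ∧ Continuous V ∧
    ∀ (lam : ℕ → ℝ) (u : ℕ → ℝ → ℝ), Admissible a b V lam u →
      ∃ j, mean a b V (u (j + 1)) < mean a b V (u j) := by
  have hW := cont_W
  have hV : Continuous fun x => W x / 100000 := hW.div_const _
  refine ⟨0, π, fun x => W x / 100000, pi_pos, ?_, hV, ?_⟩
  · refine ⟨convex_univ, fun x _ y _ s t hs ht hst => ?_⟩
    simp only [W, smul_eq_mul]
    have e : s * x + t * y - π / 2 = s * (x - π / 2) + t * (y - π / 2) := by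
      linear_combination (π / 2) * hst
    have := abs_add_le (s * (x - π / 2)) (t * (y - π / 2))
    rw [abs_mul, abs_mul, abs_of_nonneg hs, abs_of_nonneg ht] at this
    rw [e]; linarith
  rintro lam u ⟨hmono, heig, e, he⟩
  choose v p hvc hvu h1 h2 using fun j => ext_eig hV (heig j)
  have he' : ∀ j, (e j : ℝ → ℝ) =ᵐ[volume.restrict (Ioo 0 π)] v j := fun j => by
    filter_upwards [he j, ae_restrict_mem measurableSet_Ioo] with x h hx
    rw [h, hvu j x (Ioo_subset_Icc_self hx)]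
  have h0 : ∀ j, v j 0 = 0 := fun j => by
    rw [hvu j 0 ⟨le_rfl, pi_pos.le⟩]; exact (heig j).2.1
  have hpi : ∀ j, v j π = 0 := fun j => by
    rw [hvu j π ⟨pi_pos.le, le_rfl⟩]; exact (heig j).2.2.1
  have hn : ∀ j, ∫ s in (0 : ℝ)..π, v j s ^ 2 = 1 := fun j => by
    have : inner ℝ (e j) (e j) = 1 := by
      rw [real_inner_self_eq_norm_sq, e.orthonormal.1 j]; norm_num
    rw [← this, L2.inner_def, ← ioo_eq]
    refine integral_congr_ae ?_
    filter_upwards [he' j] with x h
    simp [h]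
  have hmean : ∀ j, mean 0 π (fun x => W x / 100000) (u j)
      = (∫ s in (0 : ℝ)..π, W s * v j s ^ 2) / 100000 := fun j => by
    rw [mean, ioo_eq, ← intervalIntegral.integral_div]
    refine intervalIntegral.integral_congr fun s hs => ?_
    rw [uIcc_of_le pi_pos.le] at hs
    simp only [hvu j s hs]; ring
  have near : ∀ k : ℝ, k ≠ 0 → sin (k * π) = 0 → sin (2 * k * π) = 0 →
      ∃ j, |lam j - k ^ 2| ≤ 3 / 100000 := by
    intro k hk hs hs2
    by_contra hcon
    push Not at hcon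
    have P1 := parseval e he' (f := fun x => sin (k * x)) (by fun_prop)
    have P2 := parseval e he' (f := fun x => W x / 100000 * sin (k * x)) (by fun_prop)
    rw [int_sin_sq k hk hs2] at P1
    have rel : ∀ j, ∫ x in (0 : ℝ)..π, W x / 100000 * sin (k * x) * v j x
        = (lam j - k ^ 2) * ∫ x in (0 : ℝ)..π, sin (k * x) * v j x := fun j => by
      have hc := hvc j
      have q := (PQ hV k (hvc j) (h1 j) (h2 j) (h0 j) ⟨pi_pos.le, le_rfl⟩).2
      rw [hs, hpi] at q
      rw [← intervalIntegral.integral_const_mul, ← sub_eq_zero, ← intervalIntegral.integral_sub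
        (Continuous.intervalIntegrable (by fun_prop) _ _)
        (Continuous.intervalIntegrable (by fun_prop) _ _)]
      simp only [mul_zero, zero_mul, sub_self] at q
      rw [← q]
      congr 1; funext s; ring
    have le1 := hasSum_le (fun j => ?_) (P1.mul_left ((3 / 100000) ^ 2)) P2
    · have le2 : ∫ x in (0 : ℝ)..π, (W x / 100000 * sin (k * x)) ^ 2
          ≤ ∫ x in (0 : ℝ)..π, (2 / 100000) ^ 2 * sin (k * x) ^ 2 := by
        refine intervalIntegral.integral_mono_on pi_pos.le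
          (Continuous.intervalIntegrable (by fun_prop) _ _)
          (Continuous.intervalIntegrable (by fun_prop) _ _) fun s hs => ?_
        rw [mul_pow]
        have := W_nonneg s
        gcongr
        exact W_le hs
      rw [intervalIntegral.integral_const_mul, int_sin_sq k hk hs2] at le2
      nlinarith [pi_pos]
    · rw [rel, mul_pow, ← sq_abs (lam j - k ^ 2)]
      gcongr
      exact (hcon j).le
  have s2 : sin (2 * π) = 0 := sin_two_pi
  have s3 : sin (3 * π) = 0 := by simpa using sin_nat_mul_pi 3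
  have s4 : sin (2 * 2 * π) = 0 := by
    have := sin_nat_mul_pi 4; norm_num at this ⊢; exact this
  have s6 : sin (2 * 3 * π) = 0 := by
    have := sin_nat_mul_pi 6; norm_num at this ⊢; exact this
  have c4 : cos (2 * 2 * π) = 1 := by
    have := cos_nat_mul_two_pi 2; rw [← this]; congr 1; push_cast; ring
  have c6 : cos (2 * 3 * π) = 1 := by
    have := cos_nat_mul_two_pi 3; rw [← this]; congr 1; push_cast; ring
  have c3 : cos (3 * π) = -1 := by
    rw [show 3 * π = π + 2 * π by ring, cos_add_two_pi, cos_pi]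
  obtain ⟨i, hi⟩ := near 2 two_ne_zero s2 s4
  obtain ⟨j, hj⟩ := near 3 three_ne_zero s3 s6
  have hij : i ≤ j := by
    by_contra h
    have := hmono (not_le.1 h).le
    rw [abs_le] at hi hj
    linarith [hi.2, hj.1]
  obtain ⟨γ, a1, a2⟩ := approx le_rfl (hvc i) (h1 i) (h2 i) (h0 i) (hn i) hi
  obtain ⟨δ, b1, b2⟩ := approx (by norm_num) (hvc j) (h1 j) (h2 j) (h0 j) (hn j) hj
  rw [int_sin_sq 2 two_ne_zero s4] at a1
  rw [int_W 2 two_ne_zero s4 c4, cos_two_pi] at a2
  rw [int_sin_sq 3 three_ne_zero s6] at b1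
  rw [int_W 3 three_ne_zero s6 c6, c3] at b2
  by_contra hcon
  push Not at hcon
  have hm := monotone_nat_of_le_succ hcon hij
  simp only [hmean] at hm
  rw [abs_le] at a1 a2 b1 b2
  have p3 := pi_gt_three
  have p4 := pi_le_four
  have hδ : 2 / 5 ≤ δ := by nlinarith [b1.2]
  have k1 : π / 4 * (1 - 1 / 1000) ≤ γ * (π ^ 2 / 8) := by nlinarith [a1.2]
  have k2 : δ * (π ^ 2 / 8) ≤ π / 4 * (1 + 1 / 1000) := by nlinarith [b1.1]
  nlinarith [a2.1, b2.2]

end Pool.Agent.Results.MP_490a28_an.No
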